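import Mathlib

set_option autoImplicit false

/-!
# Latin bitrades whose mates need abelian groups of exponential order

For every `n ≥ 1` a latin bitrade `(W, B)` of size `3 n + 1` (a spherical one) such that both mates
embed in the cyclic group of order `2 ^ n`, while every abelian group in which `W` embeds has order
at least `2 ^ n` (or is infinite).
-/

namespace Pool.Agent.Results.MP_afce15_co.ExponentialOrder

open Finset Filter

/-- A partial latin square: a finite set of triples (row, column, symbol) in which any two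
coordinates determine the third. -/
def IsPLS (P : Finset (ℕ × ℕ × ℕ)) : Prop :=
  ∀ p ∈ P, ∀ q ∈ P, (p.1 = q.1 → p.2.1 = q.2.1 → p = q) ∧ (p.1 = q.1 → p.2.2 = q.2.2 → p = q) ∧
    (p.2.1 = q.2.1 → p.2.2 = q.2.2 → p = q)

/-- A latin bitrade `(W, B)`: two nonempty disjoint partial latin squares which fill the same cells
and have the same symbols in each row and in each column. -/
structure IsBitrade (W B : Finset (ℕ × ℕ × ℕ)) : Prop where
  nonempty : W.Nonempty ∧ B.Nonempty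
  pls : IsPLS W ∧ IsPLS B
  cells : ∀ r c, (∃ s, (r, c, s) ∈ W) ↔ ∃ s, (r, c, s) ∈ B
  rows : ∀ r s, (∃ c, (r, c, s) ∈ W) ↔ ∃ c, (r, c, s) ∈ B
  cols : ∀ c s, (∃ r, (r, c, s) ∈ W) ↔ ∃ r, (r, c, s) ∈ B
  disj : Disjoint W B

/-- `P` embeds in the abelian group `G`: there are maps `α, β, γ` of the rows, columns and symbols
into `G`, injective on the rows, the columns and the symbols of `P`, with `α r + β c = γ s` for
every triple `(r, c, s)` of `P`. -/
def Embeds (P : Finset (ℕ × ℕ × ℕ)) (G : Type*) [AddCommGroup G] : Prop :=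
  ∃ α β γ : ℕ → G, Set.InjOn α {r | ∃ c s, (r, c, s) ∈ P} ∧
    Set.InjOn β {c | ∃ r s, (r, c, s) ∈ P} ∧ Set.InjOn γ {s | ∃ r c, (r, c, s) ∈ P} ∧
    ∀ r c s, (r, c, s) ∈ P → α r + β c = γ s

/-- The orders of the finite abelian groups in which both mates embed. -/
def Orders (W B : Finset (ℕ × ℕ × ℕ)) : Set ℕ :=
  {k | ∃ (G : Type) (_ : AddCommGroup G), Finite G ∧ Nat.card G = k ∧ Embeds W G ∧ Embeds B G}

/-- the first mate: `r_i + c_0 = s_i`, `r_0 + c_i = s_i`, `r_i + c_i = s_(i+1)` for `1 ≤ i ≤ n` and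
`r_0 + c_0 = s_(n+1)` -/
def W (n : ℕ) : Finset (ℕ × ℕ × ℕ) :=
  ((Icc 1 n).image fun i => (i, 0, i)) ∪ ((Icc 1 n).image fun i => (0, i, i)) ∪
    ((Icc 1 n).image fun i => (i, i, i + 1)) ∪ {(0, 0, n + 1)}

/-- the second mate: `r_i + c_0 = s_(i+1)`, `r_0 + c_i = s_(i+1)`, `r_i + c_i = s_i` for
`1 ≤ i ≤ n` and `r_0 + c_0 = s_1` -/
def B (n : ℕ) : Finset (ℕ × ℕ × ℕ) :=
  ((Icc 1 n).image fun i => (i, 0, i + 1)) ∪ ((Icc 1 n).image fun i => (0, i, i + 1)) ∪
    ((Icc 1 n).image fun i => (i, i, i)) ∪ {(0, 0, 1)}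

theorem mem_W {n r c s : ℕ} : (r, c, s) ∈ W n ↔
    ((1 ≤ r ∧ r ≤ n) ∧ c = 0 ∧ s = r) ∨ (r = 0 ∧ (1 ≤ c ∧ c ≤ n) ∧ s = c) ∨
      ((1 ≤ r ∧ r ≤ n) ∧ c = r ∧ s = r + 1) ∨ (r = 0 ∧ c = 0 ∧ s = n + 1) := by
  simp only [W, mem_union, mem_image, mem_Icc, Prod.mk.injEq, mem_singleton]
  constructor
  · rintro (((⟨i, hi, rfl, rfl, rfl⟩ | ⟨i, hi, rfl, rfl, rfl⟩) | ⟨i, hi, rfl, rfl, rfl⟩) |
      ⟨rfl, rfl, rfl⟩)
    · exact Or.inl ⟨hi, rfl, rfl⟩
    · exact Or.inr (Or.inl ⟨rfl, hi, rfl⟩)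
    · exact Or.inr (Or.inr (Or.inl ⟨hi, rfl, rfl⟩))
    · exact Or.inr (Or.inr (Or.inr ⟨rfl, rfl, rfl⟩))
  · rintro (⟨h, rfl, rfl⟩ | ⟨rfl, h, rfl⟩ | ⟨h, rfl, rfl⟩ | ⟨rfl, rfl, rfl⟩)
    · exact Or.inl (Or.inl (Or.inl ⟨_, h, rfl, rfl, rfl⟩))
    · exact Or.inl (Or.inl (Or.inr ⟨_, h, rfl, rfl, rfl⟩))
    · exact Or.inl (Or.inr ⟨_, h, rfl, rfl, rfl⟩)
    · exact Or.inr ⟨rfl, rfl, rfl⟩

theorem mem_B {n r c s : ℕ} : (r, c, s) ∈ B n ↔
    ((1 ≤ r ∧ r ≤ n) ∧ c = 0 ∧ s = r + 1) ∨ (r = 0 ∧ (1 ≤ c ∧ c ≤ n) ∧ s = c + 1) ∨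
      ((1 ≤ r ∧ r ≤ n) ∧ c = r ∧ s = r) ∨ (r = 0 ∧ c = 0 ∧ s = 1) := by
  simp only [B, mem_union, mem_image, mem_Icc, Prod.mk.injEq, mem_singleton]
  constructor
  · rintro (((⟨i, hi, rfl, rfl, rfl⟩ | ⟨i, hi, rfl, rfl, rfl⟩) | ⟨i, hi, rfl, rfl, rfl⟩) |
      ⟨rfl, rfl, rfl⟩)
    · exact Or.inl ⟨hi, rfl, rfl⟩
    · exact Or.inr (Or.inl ⟨rfl, hi, rfl⟩)
    · exact Or.inr (Or.inr (Or.inl ⟨hi, rfl, rfl⟩))
    · exact Or.inr (Or.inr (Or.inr ⟨rfl, rfl, rfl⟩))
  · rintro (⟨h, rfl, rfl⟩ | ⟨rfl, h, rfl⟩ | ⟨h, rfl, rfl⟩ | ⟨rfl, rfl, rfl⟩)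
    · exact Or.inl (Or.inl (Or.inl ⟨_, h, rfl, rfl, rfl⟩))
    · exact Or.inl (Or.inl (Or.inr ⟨_, h, rfl, rfl, rfl⟩))
    · exact Or.inl (Or.inr ⟨_, h, rfl, rfl, rfl⟩)
    · exact Or.inr ⟨rfl, rfl, rfl⟩

theorem bitrade {n : ℕ} (hn : 1 ≤ n) : IsBitrade (W n) (B n) where
  nonempty := ⟨⟨(0, 0, n + 1), by rw [mem_W]; omega⟩, ⟨(0, 0, 1), by rw [mem_B]; omega⟩⟩
  pls := by
    constructor
    · rintro ⟨r, c, s⟩ h ⟨r', c', s'⟩ h'
      rw [mem_W] at h h'
      simp only [Prod.mk.injEq]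
      omega
    · rintro ⟨r, c, s⟩ h ⟨r', c', s'⟩ h'
      rw [mem_B] at h h'
      simp only [Prod.mk.injEq]
      omega
  cells := by
    intro r c
    constructor
    · rintro ⟨s, h⟩
      rw [mem_W] at h
      rcases h with h | h | h | h
      · exact ⟨r + 1, by rw [mem_B]; omega⟩
      · exact ⟨c + 1, by rw [mem_B]; omega⟩
      · exact ⟨r, by rw [mem_B]; omega⟩
      · exact ⟨1, by rw [mem_B]; omega⟩
    · rintro ⟨s, h⟩
      rw [mem_B] at h
      rcases h with h | h | h | h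
      · exact ⟨r, by rw [mem_W]; omega⟩
      · exact ⟨c, by rw [mem_W]; omega⟩
      · exact ⟨r + 1, by rw [mem_W]; omega⟩
      · exact ⟨n + 1, by rw [mem_W]; omega⟩
  rows := by
    intro r s
    constructor
    · rintro ⟨c, h⟩
      rw [mem_W] at h
      rcases h with h | h | h | h
      · exact ⟨r, by rw [mem_B]; omega⟩
      · by_cases hs : s = 1
        · exact ⟨0, by rw [mem_B]; omega⟩
        · exact ⟨s - 1, by rw [mem_B]; omega⟩
      · exact ⟨0, by rw [mem_B]; omega⟩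
      · exact ⟨n, by rw [mem_B]; omega⟩
    · rintro ⟨c, h⟩
      rw [mem_B] at h
      rcases h with h | h | h | h
      · exact ⟨r, by rw [mem_W]; omega⟩
      · by_cases hs : s = n + 1
        · exact ⟨0, by rw [mem_W]; omega⟩
        · exact ⟨s, by rw [mem_W]; omega⟩
      · exact ⟨0, by rw [mem_W]; omega⟩
      · exact ⟨1, by rw [mem_W]; omega⟩
  cols := by
    intro c s
    constructor
    · rintro ⟨r, h⟩
      rw [mem_W] at h
      rcases h with h | h | h | h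
      · by_cases hs : s = 1
        · exact ⟨0, by rw [mem_B]; omega⟩
        · exact ⟨s - 1, by rw [mem_B]; omega⟩
      · exact ⟨c, by rw [mem_B]; omega⟩
      · exact ⟨0, by rw [mem_B]; omega⟩
      · exact ⟨n, by rw [mem_B]; omega⟩
    · rintro ⟨r, h⟩
      rw [mem_B] at h
      rcases h with h | h | h | h
      · by_cases hs : s = n + 1
        · exact ⟨0, by rw [mem_W]; omega⟩
        · exact ⟨s, by rw [mem_W]; omega⟩
      · exact ⟨c, by rw [mem_W]; omega⟩
      · exact ⟨0, by rw [mem_W]; omega⟩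
      · exact ⟨1, by rw [mem_W]; omega⟩
  disj := by
    rw [Finset.disjoint_left]
    rintro ⟨r, c, s⟩ h h'
    rw [mem_W] at h
    rw [mem_B] at h'
    omega

theorem card_W (n : ℕ) : (W n).card = 3 * n + 1 := by
  have i1 : Function.Injective (fun i : ℕ => ((i, 0, i) : ℕ × ℕ × ℕ)) := fun a b h => by
    simpa using h
  have i2 : Function.Injective (fun i : ℕ => ((0, i, i) : ℕ × ℕ × ℕ)) := fun a b h => by
    simpa using h
  have i3 : Function.Injective (fun i : ℕ => ((i, i, i + 1) : ℕ × ℕ × ℕ)) := fun a b h => by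
    simpa using h
  unfold W
  rw [card_union_of_disjoint, card_union_of_disjoint, card_union_of_disjoint,
    card_image_of_injective _ i1, card_image_of_injective _ i2, card_image_of_injective _ i3,
    Nat.card_Icc, card_singleton]
  · omega
  · rw [Finset.disjoint_left]
    rintro ⟨r, c, s⟩ h h'
    simp only [mem_image, mem_Icc, Prod.mk.injEq] at h h'
    omega
  · rw [Finset.disjoint_left]
    rintro ⟨r, c, s⟩ h h'
    simp only [mem_union, mem_image, mem_Icc, Prod.mk.injEq] at h h'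
    omega
  · rw [Finset.disjoint_left]
    rintro ⟨r, c, s⟩ h h'
    simp only [mem_union, mem_image, mem_Icc, Prod.mk.injEq, mem_singleton] at h h'
    omega

/-- a group in which `W n` embeds has an element of order `2 ^ n` -/
theorem exists_order {n : ℕ} (hn : 1 ≤ n) {G : Type*} [AddCommGroup G] (h : Embeds (W n) G) :
    ∃ x : G, addOrderOf x = 2 ^ n := by
  obtain ⟨α, β, γ, hα, hβ, hγ, hs⟩ := h
  have e1 : ∀ i, 1 ≤ i → i ≤ n → α i + β 0 = γ i := fun i h1 h2 =>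
    hs _ _ _ (by rw [mem_W]; omega)
  have e2 : ∀ i, 1 ≤ i → i ≤ n → α 0 + β i = γ i := fun i h1 h2 =>
    hs _ _ _ (by rw [mem_W]; omega)
  have e3 : ∀ i, 1 ≤ i → i ≤ n → α i + β i = γ (i + 1) := fun i h1 h2 =>
    hs _ _ _ (by rw [mem_W]; omega)
  have e4 : α 0 + β 0 = γ (n + 1) := hs _ _ _ (by rw [mem_W]; omega)
  set z : ℕ → G := fun i => γ i - (α 0 + β 0) with hz
  have e5 : ∀ i, 1 ≤ i → i ≤ n → z (i + 1) = 2 • z i := by
    intro i h1 h2
    have a1 := e1 i h1 h2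
    have a2 := e2 i h1 h2
    have a3 := e3 i h1 h2
    simp only [hz]
    have b1 : α i = γ i - β 0 := eq_sub_of_add_eq a1
    have b2 : β i = γ i - α 0 := eq_sub_of_add_eq' a2
    rw [← a3, b1, b2, two_nsmul]
    abel
  have e6 : ∀ i, i ≤ n → z (i + 1) = 2 ^ i • z 1 := by
    intro i
    induction i with
    | zero => intro _; simp
    | succ i ih =>
      intro hi
      rw [e5 (i + 1) (by omega) hi, ih (by omega), ← mul_nsmul', pow_succ, mul_comm]
  refine ⟨z 1, ?_⟩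
  have h0 : 2 ^ n • z 1 = 0 := by
    rw [← e6 n le_rfl]
    simp only [hz]
    rw [e4, sub_self]
  obtain ⟨m, rfl⟩ : ∃ m, n = m + 1 := ⟨n - 1, by omega⟩
  refine addOrderOf_eq_prime_pow ?_ h0
  rw [← e6 m (by omega)]
  simp only [hz]
  intro h
  have h1 := e1 (m + 1) (by omega) le_rfl
  rw [← h1] at h
  have h2 : α (m + 1) = α 0 := by
    have : α (m + 1) - α 0 = 0 := by rw [← h]; abel
    exact sub_eq_zero.1 this
  have h3 : m + 1 = 0 := hα ⟨0, m + 1, by rw [mem_W]; omega⟩ ⟨0, m + 1 + 1, by rw [mem_W]; omega⟩ h2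
  omega

theorem card_ge {n : ℕ} (hn : 1 ≤ n) {G : Type*} [AddCommGroup G] [Finite G]
    (h : Embeds (W n) G) : 2 ^ n ≤ Nat.card G := by
  obtain ⟨x, hx⟩ := exists_order hn h
  rw [← hx]
  exact addOrderOf_le_card

theorem pow_inj {n i j : ℕ} (hi : i < n) (hj : j < n)
    (h : ((2 ^ i : ℕ) : ZMod (2 ^ n)) = ((2 ^ j : ℕ) : ZMod (2 ^ n))) : i = j := by
  rw [ZMod.natCast_eq_natCast_iff'] at h
  rw [Nat.mod_eq_of_lt (Nat.pow_lt_pow_right (by norm_num) hi),
    Nat.mod_eq_of_lt (Nat.pow_lt_pow_right (by norm_num) hj)] at h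
  exact Nat.pow_right_injective le_rfl h

theorem pow_ne {n i : ℕ} (hi : i < n) : ((2 ^ i : ℕ) : ZMod (2 ^ n)) ≠ 0 := by
  intro h
  rw [ZMod.natCast_eq_zero_iff] at h
  exact absurd (Nat.le_of_dvd (by positivity) h)
    (not_le.2 (Nat.pow_lt_pow_right (by norm_num) hi))

/-- the labels of the first mate: `0` for the index `0`, and `2 ^ (i - 1)` for `i ≥ 1` -/
def lab (n i : ℕ) : ZMod (2 ^ n) := if i = 0 then 0 else ((2 ^ (i - 1) : ℕ) : ZMod (2 ^ n))

/-- the labels of the rows and columns of the second mate -/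
def lab' (n i : ℕ) : ZMod (2 ^ n) := if i = 0 then 0 else ((2 ^ (n - i) : ℕ) : ZMod (2 ^ n))

theorem two_pow_self (n : ℕ) : ((2 ^ n : ℕ) : ZMod (2 ^ n)) = 0 := ZMod.natCast_self _

theorem embeds_W {n : ℕ} (hn : 1 ≤ n) : Embeds (W n) (ZMod (2 ^ n)) := by
  have inj : ∀ i j, i ≤ n → j ≤ n → lab n i = lab n j → i = j := by
    intro i j hi hj h
    unfold lab at h
    split_ifs at h with h1 h2 h2
    · omega
    · exact absurd h.symm (pow_ne (by omega))
    · exact absurd h (pow_ne (by omega))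
    · have := pow_inj (by omega) (by omega) h
      omega
  refine ⟨lab n, lab n, lab n, ?_, ?_, ?_, ?_⟩
  · rintro i ⟨c, s, h⟩ j ⟨c', s', h'⟩ hij
    rw [mem_W] at h h'
    exact inj i j (by omega) (by omega) hij
  · rintro i ⟨c, s, h⟩ j ⟨c', s', h'⟩ hij
    rw [mem_W] at h h'
    exact inj i j (by omega) (by omega) hij
  · rintro i ⟨c, s, h⟩ j ⟨c', s', h'⟩ hij
    rw [mem_W] at h h'
    -- the symbol `n + 1` has the label `0`
    have hlast : lab n (n + 1) = lab n 0 := by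
      unfold lab
      rw [if_neg (by omega), if_pos rfl, Nat.add_sub_cancel]
      exact two_pow_self n
    by_cases hi : i = n + 1
    · by_cases hj : j = n + 1
      · omega
      · rw [hi, hlast] at hij
        have := inj 0 j (by omega) (by omega) hij
        omega
    · by_cases hj : j = n + 1
      · rw [hj, hlast] at hij
        have := inj i 0 (by omega) (by omega) hij
        omega
      · exact inj i j (by omega) (by omega) hij
  · intro r c s h
    rw [mem_W] at h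
    rcases h with ⟨h, rfl, rfl⟩ | ⟨rfl, h, rfl⟩ | ⟨h, rfl, rfl⟩ | ⟨rfl, rfl, rfl⟩
    · simp [lab]
    · simp [lab]
    · obtain ⟨m, rfl⟩ : ∃ m, c = m + 1 := ⟨c - 1, by omega⟩
      unfold lab
      rw [if_neg (by omega), if_neg (by omega), Nat.add_sub_cancel, Nat.add_sub_cancel]
      rw [← Nat.cast_add, pow_succ]
      congr 1
      ring
    · unfold lab
      rw [if_pos rfl, if_neg (by omega), Nat.add_sub_cancel, two_pow_self, add_zero]

theorem embeds_B {n : ℕ} (hn : 1 ≤ n) : Embeds (B n) (ZMod (2 ^ n)) := by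
  have inj : ∀ i j, i ≤ n → j ≤ n → lab' n i = lab' n j → i = j := by
    intro i j hi hj h
    unfold lab' at h
    split_ifs at h with h1 h2 h2
    · omega
    · exact absurd h.symm (pow_ne (by omega))
    · exact absurd h (pow_ne (by omega))
    · have := pow_inj (by omega) (by omega) h
      omega
  -- the symbol `s_i` has the label of the row `i - 1`
  refine ⟨lab' n, lab' n, fun i => lab' n (i - 1), ?_, ?_, ?_, ?_⟩
  · rintro i ⟨c, s, h⟩ j ⟨c', s', h'⟩ hij
    rw [mem_B] at h h'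
    exact inj i j (by omega) (by omega) hij
  · rintro i ⟨c, s, h⟩ j ⟨c', s', h'⟩ hij
    rw [mem_B] at h h'
    exact inj i j (by omega) (by omega) hij
  · rintro i ⟨c, s, h⟩ j ⟨c', s', h'⟩ hij
    rw [mem_B] at h h'
    have := inj (i - 1) (j - 1) (by omega) (by omega) hij
    omega
  · intro r c s h
    rw [mem_B] at h
    rcases h with ⟨h, rfl, rfl⟩ | ⟨rfl, h, rfl⟩ | ⟨h, hc, hs⟩ | ⟨rfl, rfl, rfl⟩
    · simp [lab']
    · simp [lab']
    · rw [hc, hs]
      by_cases h1 : r = 1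
      · rw [h1]
        obtain ⟨m, rfl⟩ : ∃ m, n = m + 1 := ⟨n - 1, by omega⟩
        show lab' (m + 1) 1 + lab' (m + 1) 1 = lab' (m + 1) (1 - 1)
        unfold lab'
        rw [if_neg (by omega), if_pos (by omega), Nat.add_sub_cancel, ← Nat.cast_add,
          ← two_mul, ← pow_succ']
        exact two_pow_self _
      · show lab' n r + lab' n r = lab' n (r - 1)
        unfold lab'
        rw [if_neg (by omega), if_neg (by omega), ← Nat.cast_add, ← two_mul, ← pow_succ']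
        congr 2
        omega
    · simp [lab']

/-- For every `n ≥ 1` there is a latin bitrade `(W, B)` of size `3 n + 1` for which the least order
of a finite abelian group containing both mates is `2 ^ n`; hence there are a constant `c > 1` and
latin bitrades `(W_n, B_n)` with `|W_n| → ∞`, both mates of which embed in a finite abelian group,
such that every finite abelian group containing both mates has order at least `c ^ |W_n|`. -/
theorem result :
    (∀ n : ℕ, 1 ≤ n → ∃ W B : Finset (ℕ × ℕ × ℕ), IsBitrade W B ∧ W.card = 3 * n + 1 ∧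
      IsLeast (Orders W B) (2 ^ n)) ∧
    ∃ (c : ℝ) (W B : ℕ → Finset (ℕ × ℕ × ℕ)), 1 < c ∧ (∀ n, IsBitrade (W n) (B n)) ∧
      Tendsto (fun n => (W n).card) atTop atTop ∧
      ∀ n, (Orders (W n) (B n)).Nonempty ∧ ∀ k ∈ Orders (W n) (B n), c ^ (W n).card ≤ (k : ℝ) := by
  have main : ∀ n : ℕ, 1 ≤ n → IsLeast (Orders (W n) (B n)) (2 ^ n) := by
    intro n hn
    refine ⟨⟨ZMod (2 ^ n), inferInstance, ?_, Nat.card_zmod _, embeds_W hn, embeds_B hn⟩, ?_⟩
    · have : NeZero (2 ^ n) := ⟨by positivity⟩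
      infer_instance
    · rintro k ⟨G, _, hG, rfl, hW, -⟩
      exact card_ge hn hW
  refine ⟨fun n hn => ⟨W n, B n, bitrade hn, card_W n, main n hn⟩, ?_⟩
  refine ⟨(2 : ℝ) ^ ((1 : ℝ) / 4), fun n => W (n + 1), fun n => B (n + 1), ?_,
    fun n => bitrade (by omega), ?_, ?_⟩
  · exact Real.one_lt_rpow (by norm_num) (by norm_num)
  · refine tendsto_atTop_mono (f := fun n => n) (fun n => ?_) tendsto_id
    rw [card_W]
    omega
  · intro n
    refine ⟨⟨_, (main (n + 1) (by omega)).1⟩, fun k hk => ?_⟩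
    have h1 : 2 ^ (n + 1) ≤ k := (main (n + 1) (by omega)).2 hk
    have h2 : ((2 : ℝ) ^ ((1 : ℝ) / 4)) ^ (W (n + 1)).card ≤ (2 : ℝ) ^ (n + 1) := by
      rw [card_W, ← Real.rpow_natCast, ← Real.rpow_mul (by norm_num), ← Real.rpow_natCast 2 (n + 1)]
      apply Real.rpow_le_rpow_of_exponent_le (by norm_num)
      push_cast
      have : (0 : ℝ) ≤ n := Nat.cast_nonneg n
      linarith
    refine h2.trans ?_
    exact_mod_cast h1

end Pool.Agent.Results.MP_afce15_co.ExponentialOrder
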